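import Pool.Agent.H24.SCG.Base

/-!
# SCG: the upper bound for all groups between
-/

set_option autoImplicit false

namespace Pool.Agent.H12.SCG

open Pool.SCG

/-- UPP: the upper bound for the groups between `Inn F` and `AutG F`. -/
theorem upp_thm (hU5 : Pool.SCG.U5Stmt) (hIRR : Pool.SCG.IRRStmt) (hBV : Pool.SCG.BVStmt)
    (hAUI : Pool.SCG.AUIStmt) (hIOT : Pool.SCG.IOTStmt) (hGOO : Pool.SCG.GOOStmt) :
    Pool.SCG.UPPStmt := by
  intro F _ _ hcard G r hInn hAut hS
  obtain ⟨ρ, hρ, hgen⟩ := hS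
  obtain ⟨hgood, -, -⟩ := hGOO F hcard
  obtain ⟨hinj, hran, hconj, -⟩ := hIOT F hgood
  have hρG : ∀ i, ρ i ∈ G := fun i => by
    rw [← hgen]
    exact Subgroup.subset_closure ⟨i, rfl⟩
  have hρ2 : ∀ i, ρ i ≠ 1 ∧ ρ i * ρ i = 1 := by
    intro i
    have h := hρ.invol i
    refine ⟨?_, ?_⟩
    · intro h1
      rw [h1, orderOf_one] at h
      exact absurd h (by norm_num)
    · rw [← pow_two, ← h]
      exact pow_orderOf_eq_one _
  have hx' : ∀ i, ∃ x : Cor F, iota F x = ρ i := fun i =>
    hAUI F hcard (ρ i) (hAut (hρG i)) (hρ2 i).2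
  choose x hx using hx'
  have hx2 : ∀ i, x i ≠ 1 ∧ x i * x i = 1 := by
    intro i
    refine ⟨?_, ?_⟩
    · intro h
      apply (hρ2 i).1
      rw [← hx, h, map_one]
    · apply hinj
      rw [map_mul, hx, map_one]
      exact (hρ2 i).2
  have hxc : ∀ i j : Fin r, i.val + 2 ≤ j.val → x i * x j = x j * x i := by
    intro i j hij
    apply hinj
    rw [map_mul, map_mul, hx, hx]
    exact hρ.comm i j hij
  -- images of closures
  have hmap : ∀ I : Set (Fin r),
      (Subgroup.closure (x '' I)).map (iota F) = Subgroup.closure (ρ '' I) := by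
    intro I
    rw [MonoidHom.map_closure, ← Set.image_comp]
    have : ((iota F) ∘ x) '' I = ρ '' I := by
      apply Set.image_congr
      intro i _
      exact hx i
    rw [this]
  have hmem : ∀ (I : Set (Fin r)) (y : Cor F),
      y ∈ Subgroup.closure (x '' I) ↔ iota F y ∈ Subgroup.closure (ρ '' I) := by
    intro I y
    rw [← hmap]
    constructor
    · intro h
      exact ⟨y, h, rfl⟩
    · rintro ⟨z, hz, h⟩
      rwa [← hinj h]
  have hmapr : (Subgroup.closure (Set.range x)).map (iota F) = G := by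
    rw [← Set.image_univ, hmap, Set.image_univ, hgen]
  have hmemr : ∀ y : Cor F, y ∈ Subgroup.closure (Set.range x) ↔ iota F y ∈ G := by
    intro y
    rw [← Set.image_univ, hmem, Set.image_univ, hgen]
  have hinn : ∀ m : SL3 F, inn m ∈ Subgroup.closure (Set.range x) := by
    intro m
    rw [hmemr, hconj]
    exact hInn ⟨m, rfl⟩
  have hirr := hIRR F hgood r x hx2 hxc hinn
  -- some `x i` is outer
  have hout : ∃ i, (x i).s = true := by
    by_contra hno
    have hno' : ∀ i, (x i).s = false := fun i => by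
      cases h : (x i).s
      · rfl
      · exact absurd ⟨i, h⟩ hno
    obtain ⟨m, hm⟩ := hBV F hgood r x hx2 hno' hxc hirr
    exact hm (hinn m)
  obtain ⟨i0, hi0⟩ := hout
  have htop : Subgroup.closure (Set.range x) = ⊤ := by
    rw [Subgroup.eq_top_iff']
    intro y
    cases hy : y.s with
    | false =>
      have h1 : y = inn y.m := Cor.ext rfl hy
      rw [h1]
      exact hinn _
    | true =>
      have h1 : y = x i0 * inn ((x i0).m⁻¹ * y.m) := by
        apply Cor.ext
        · simp [tw]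
        · simp [hi0, hy]
      rw [h1]
      exact Subgroup.mul_mem _ (Subgroup.subset_closure ⟨i0, rfl⟩) (hinn _)
  have hG : G = GraphExt F := by
    rw [← hran, ← hmapr, htop]
    exact (MonoidHom.range_eq_map _).symm
  refine ⟨hG, ?_⟩
  by_contra hr
  have hr5 : 5 ≤ r := by omega
  -- the intersection property for disjoint sets of generators
  have hdis : ∀ I J : Set (Fin r), (∀ i ∈ I, i ∈ J → False) →
      ∀ y ∈ Subgroup.closure (x '' I), y ∈ Subgroup.closure (x '' J) → y = 1 := by
    intro I J hIJ y hyI hyJ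
    have h1 : iota F y ∈ Subgroup.closure (ρ '' I) ⊓ Subgroup.closure (ρ '' J) :=
      ⟨(hmem I y).1 hyI, (hmem J y).1 hyJ⟩
    rw [hρ.inter] at h1
    have h2 : I ∩ J = ∅ := by
      ext i
      constructor
      · rintro ⟨h3, h4⟩
        exact hIJ i h3 h4
      · intro h3
        exact absurd h3 (Set.notMem_empty i)
    rw [h2, Set.image_empty, Subgroup.closure_empty, Subgroup.mem_bot] at h1
    apply hinj
    rw [h1, map_one]
  obtain ⟨f0, h0⟩ : ∃ f : Fin r, f.val = 0 := ⟨⟨0, by omega⟩, rfl⟩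
  obtain ⟨f1, h1⟩ : ∃ f : Fin r, f.val = 1 := ⟨⟨1, by omega⟩, rfl⟩
  obtain ⟨f2, h2⟩ : ∃ f : Fin r, f.val = 2 := ⟨⟨2, by omega⟩, rfl⟩
  obtain ⟨f3, h3⟩ : ∃ f : Fin r, f.val = 3 := ⟨⟨3, by omega⟩, rfl⟩
  obtain ⟨f4, h4⟩ : ∃ f : Fin r, f.val = 4 := ⟨⟨4, by omega⟩, rfl⟩
  have e1 : ∀ i : Fin r, ({x i} : Set (Cor F)) = x '' {i} := by
    intro i
    rw [Set.image_singleton]
  have e2 : ∀ i j : Fin r, ({x i, x j} : Set (Cor F)) = x '' {i, j} := by
    intro i j
    rw [Set.image_pair]
  have e3 : ∀ i j k : Fin r, ({x i, x j, x k} : Set (Cor F)) = x '' {i, j, k} := by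
    intro i j k
    rw [Set.image_insert_eq, Set.image_pair]
  have e4 : ∀ i j k l : Fin r, ({x i, x j, x k, x l} : Set (Cor F)) = x '' {i, j, k, l} := by
    intro i j k l
    rw [Set.image_insert_eq, Set.image_insert_eq, Set.image_pair]
  refine hU5 F hgood (x f0) (x f1) (x f2) (x f3) (x f4) ?_
  refine
    { ia := hx2 f0
      ib := hx2 f1
      ic := hx2 f2
      id := hx2 f3
      ie := hx2 f4
      ac := hxc f0 f2 (by omega)
      ad := hxc f0 f3 (by omega)
      ae := hxc f0 f4 (by omega)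
      bd := hxc f1 f3 (by omega)
      be := hxc f1 f4 (by omega)
      ce := hxc f2 f4 (by omega)
      ab := hirr f0 f1 (by omega)
      bc := hirr f1 f2 (by omega)
      cd := hirr f2 f3 (by omega)
      de := hirr f3 f4 (by omega)
      v1 := ?_
      v2 := ?_
      v3 := ?_
      v4 := ?_ }
  · intro h
    rw [e4] at h
    apply (hx2 f4).1
    refine hdis {f4} {f0, f1, f2, f3} ?_ (x f4) ?_ h
    · intro i hi hj
      simp only [Set.mem_insert_iff, Set.mem_singleton_iff] at hi hj
      rcases hj with hj | hj | hj | hj <;> · rw [hi] at hj; rw [hj] at h4; omega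
    · exact Subgroup.subset_closure ⟨f4, rfl, rfl⟩
  · intro h
    rw [e4] at h
    apply (hx2 f0).1
    refine hdis {f0} {f1, f2, f3, f4} ?_ (x f0) ?_ h
    · intro i hi hj
      simp only [Set.mem_insert_iff, Set.mem_singleton_iff] at hi hj
      rcases hj with hj | hj | hj | hj <;> · rw [hi] at hj; rw [hj] at h0; omega
    · exact Subgroup.subset_closure ⟨f0, rfl, rfl⟩
  · intro y hy hy'
    rw [e2] at hy
    rw [e3] at hy'
    refine hdis {f0, f1} {f2, f3, f4} ?_ y hy hy'
    intro i hi hj
    simp only [Set.mem_insert_iff, Set.mem_singleton_iff] at hi hj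
    rcases hi with hi | hi <;> rcases hj with hj | hj | hj <;>
      · rw [hi] at hj
        have := congrArg Fin.val hj
        omega
  · intro y hy hy'
    rw [e2] at hy
    rw [e3] at hy'
    refine hdis {f3, f4} {f0, f1, f2} ?_ y hy hy'
    intro i hi hj
    simp only [Set.mem_insert_iff, Set.mem_singleton_iff] at hi hj
    rcases hi with hi | hi <;> rcases hj with hj | hj | hj <;>
      · rw [hi] at hj
        have := congrArg Fin.val hj
        omega

end Pool.Agent.H12.SCG
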